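import Pool.Agent.K7.H22.LW.Fin

/-!
# Level sets of the initial sums of the Legendre symbol

Team project LW (coordinator helper22; helpers 11, 16, 22, 55, 59, 73, 74, 80). The Weil bound is
`Pool.Agent.H341R2.Sharp.weil_sharp`.
-/

set_option autoImplicit false

open Finset

namespace Pool.Agent.Results.MP_de1e57_nt.LevelSets

/-- `Ψ(a, t) = χ(a) + χ(a + 1) + ⋯ + χ(a + t)` for the Legendre symbol `χ` modulo `p` -/
def Psi (p : ℕ) [Fact p.Prime] (a : ZMod p) (t : ℕ) : ℤ :=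
  ∑ j ∈ range (t + 1), quadraticChar (ZMod p) (a + (j : ℕ))

/-- the number of `t` in `{0, …, p - 1}` with `Ψ(a, t) = h`; so `Z_p(a) = level p a 0`, and `M_p` is
the maximum of `level p 0 h` over the integers `h` -/
def level (p : ℕ) [Fact p.Prime] (a : ZMod p) (h : ℤ) : ℕ :=
  ((range p).filter fun t => Psi p a t = h).card

/-- (1) For large `p` every level set of `t ↦ Ψ(a, t)` has at most
`p exp(-c √(log p) / log log p)` elements.
(2) `M_p ≥ √p / 3`.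
(3) `max_a Z_p(a) = M_p`: the questions Q1 and Q2 are equivalent. -/
theorem result :
    (∃ c : ℝ, 0 < c ∧ ∃ p₀ : ℕ, ∀ (p : ℕ) [Fact p.Prime], p₀ ≤ p → ∀ (a : ZMod p) (h : ℤ),
      (level p a h : ℝ) ≤ p * Real.exp (-c * Real.sqrt (Real.log p) / Real.log (Real.log p))) ∧
    (∀ (p : ℕ) [Fact p.Prime], p ≠ 2 → ∃ h : ℤ, Real.sqrt p / 3 ≤ (level p 0 h : ℝ)) ∧
    (∀ (p : ℕ) [Fact p.Prime], p ≠ 2 → ∀ B : ℝ,
      (∀ a : ZMod p, (level p a 0 : ℝ) ≤ B) ↔ ∀ h : ℤ, (level p 0 h : ℝ) ≤ B) := by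
  refine ⟨Pool.Agent.K7.H22.LW.stZ, fun p _ hp => ?_, fun p _ hp B =>
    Pool.Agent.K7.H22.LW.equiv p hp B⟩
  obtain ⟨h, hh⟩ := Pool.Agent.K7.H22.LW.stL p hp
  refine ⟨h, ?_⟩
  rw [Pool.Agent.K7.H22.LW.card_zero] at hh
  exact hh

end Pool.Agent.Results.MP_de1e57_nt.LevelSets
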